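import Pool.Agent.WGT.Conv

/-!
# From the inequality to the lower bound for the length of formulas
-/

set_option autoImplicit false
set_option linter.unusedVariables false

namespace WGT

open Finset

/-- the inequality of `form_ineq` as a property of the base -/
def Ineq (b : ℕ) : Prop :=
  ∀ (n w D A N : ℕ) (c : Fin N → ℤ) (m : Fin N → Fin w → ℕ) (e : Fin w → ℕ), Odd n → 1 ≤ D →
    (∀ i, ∑ j, m i j = D) → (∀ q : ℕ, q.Prime → q ∣ n → (A * D) ^ w ≤ q) →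
    ¬ ((b : ℤ) ^ n + 1 ∣ ∑ i, c i * ∏ j, ((b : ℤ) ^ e j) ^ m i j) →
    Int.gcd (∑ i, c i * ∏ j, ((b : ℤ) ^ e j) ^ m i j) ((b : ℤ) ^ n + 1) ^ A ≤
      b ^ (2 * n) * (b ^ 2 * ∑ i, (c i).natAbs) ^ ((A * D) ^ w)

/-- lower bound for the length of a formula -/
def FormBd (b : ℕ) : Prop :=
  ∀ ε : ℝ, 0 < ε → ∃ K : ℕ, ∀ (n w D N x : ℕ) (c : Fin N → ℤ) (m : Fin N → Fin w → ℕ) (e : Fin w → ℕ),
    Odd n → 1 < n → 1 ≤ D → (∀ i, ∑ j, m i j = D) → ((∑ i, (c i).natAbs : ℕ) : ℝ) ≤ (b : ℝ) ^ (√n : ℝ) →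
    x ∣ (b ^ n + 1) / (b + 1) → (b : ℝ) ^ (ε * n) ≤ x →
    (x : ℤ) ∣ ∑ i, c i * ∏ j, ((b : ℤ) ^ e j) ^ m i j →
    ¬ ((b : ℤ) ^ n + 1 ∣ ∑ i, c i * ∏ j, ((b : ℤ) ^ e j) ^ m i j) → n.minFac ≤ (K * D) ^ (4 * w)

/-- no bounded number of terms -/
def Unbd (b : ℕ) : Prop :=
  ∀ w : ℕ, ∃ p : ℕ, w < p ∧ p.Prime ∧ Odd p ∧ ∀ (x : ℕ) (c : Fin w → ℤ) (e : Fin w → ℕ),
    x ∣ (b ^ p + 1) / (b + 1) → b ^ p ≤ x ^ w → (∀ j, (c j).natAbs ≤ w) →
    (x : ℤ) ∣ ∑ j, c j * (b : ℤ) ^ e j → (b : ℤ) ^ p + 1 ∣ ∑ j, c j * (b : ℤ) ^ e j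

theorem ineq_of_not_exc (b : ℕ) (hb : 2 ≤ b) (hx : ¬ Exc b) : Ineq b := by
  intro n w D A N c m e hn hD hm hq hnd
  have h := form_ineq b n w D A N
    (Int.gcd (∑ i, c i * ∏ j, ((b : ℤ) ^ e j) ^ m i j) ((b : ℤ) ^ n + 1)) hb hx hn hD hq c m e hm
    (Int.gcd_dvd_right _ _) (Int.gcd_dvd_left _ _) hnd
  have h2 : ((b ^ (2 * n) * (b ^ 2 * ∑ i, (c i).natAbs) ^ ((A * D) ^ w) : ℕ) : ℤ) =
      (b : ℤ) ^ (2 * n) * ((b : ℤ) ^ 2 * ∑ i, |c i|) ^ ((A * D) ^ w) := by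
    push_cast
    rfl
  rw [← h2] at h
  exact_mod_cast h

theorem formBd_of_ineq (b : ℕ) (hb : 2 ≤ b) (h : Ineq b) : FormBd b := by
  intro ε hε
  set A : ℕ := ⌈4 / ε⌉₊ + 2 with hA
  have hA2 : 2 ≤ A := by omega
  have hAε : 4 ≤ ε * A := by
    have h1 : 4 / ε ≤ ⌈4 / ε⌉₊ := Nat.le_ceil _
    have h2 : (4 : ℝ) / ε ≤ A := by
      rw [hA]; push_cast; linarith
    rw [div_le_iff₀ hε] at h2
    linarith
  refine ⟨A, ?_⟩
  intro n w D N x c m e hn hn1 hD hm hc hx hxε hxz hnd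
  by_contra hlt
  push Not at hlt
  set q := n.minFac with hq
  have hqp : q.Prime := Nat.minFac_prime (by omega)
  have hqn : q ≤ n := Nat.minFac_le (by omega)
  have hw1 : 1 ≤ w := by
    by_contra hw
    have hw0 : w = 0 := by omega
    subst hw0
    rcases Nat.eq_zero_or_pos N with hN | hN
    · subst hN; exact hnd (by simp)
    · have := hm ⟨0, hN⟩
      simp at this
      omega
  set Y := (A * D) ^ w with hY
  have hY4 : Y ^ 4 < n := by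
    calc Y ^ 4 = (A * D) ^ (4 * w) := by rw [hY, ← pow_mul, mul_comm 4 w]
      _ < q := hlt
      _ ≤ n := hqn
  have hAD : 2 ≤ A * D := by nlinarith
  have hY2' : 2 ≤ Y := by
    calc 2 ≤ A * D := hAD
      _ = (A * D) ^ 1 := (pow_one _).symm
      _ ≤ (A * D) ^ w := Nat.pow_le_pow_right (by omega) hw1
  have hYq : ∀ r : ℕ, r.Prime → r ∣ n → (A * D) ^ w ≤ r := by
    intro r hr hrn
    have h1 : q ≤ r := Nat.minFac_le_of_dvd hr.two_le hrn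
    have h2 : (A * D) ^ w ≤ (A * D) ^ (4 * w) := Nat.pow_le_pow_right (by omega) (by omega)
    omega
  have hmain := h n w D A N c m e hn hD hm hYq hnd
  -- `x` divides the gcd
  have hdvd1 : b + 1 ∣ b ^ n + 1 := by
    have := Odd.nat_add_dvd_pow_add_pow b 1 hn
    simpa using this
  have hxn : x ∣ b ^ n + 1 := hx.trans (Nat.div_dvd_of_dvd hdvd1)
  have hxn' : (x : ℤ) ∣ (b : ℤ) ^ n + 1 := by exact_mod_cast hxn
  have hxg : x ∣ Int.gcd (∑ i, c i * ∏ j, ((b : ℤ) ^ e j) ^ m i j) ((b : ℤ) ^ n + 1) := by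
    have := Int.dvd_coe_gcd hxz hxn'
    exact_mod_cast this
  have hgpos : 0 < Int.gcd (∑ i, c i * ∏ j, ((b : ℤ) ^ e j) ^ m i j) ((b : ℤ) ^ n + 1) := by
    apply Int.gcd_pos_of_ne_zero_right
    positivity
  have hxle := Nat.le_of_dvd hgpos hxg
  have hx2 : x ^ A ≤ b ^ (2 * n) * (b ^ 2 * ∑ i, (c i).natAbs) ^ Y :=
    (Nat.pow_le_pow_left hxle A).trans hmain
  have hb0 : (0 : ℝ) < b := by exact_mod_cast (by omega : 0 < b)
  have hb1 : (1 : ℝ) < b := by exact_mod_cast (by omega : 1 < b)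
  have hreal : (b : ℝ) ^ (ε * n * A) ≤ (b : ℝ) ^ (2 * n + (2 + √n) * Y : ℝ) := by
    calc (b : ℝ) ^ (ε * n * A) = ((b : ℝ) ^ (ε * n)) ^ A := by
          rw [Real.rpow_mul hb0.le, Real.rpow_natCast]
      _ ≤ (x : ℝ) ^ A := pow_le_pow_left₀ (by positivity) hxε A
      _ ≤ (b : ℝ) ^ (2 * n) * ((b : ℝ) ^ 2 * ((∑ i, (c i).natAbs : ℕ) : ℝ)) ^ Y := by exact_mod_cast hx2
      _ ≤ (b : ℝ) ^ (2 * n) * ((b : ℝ) ^ 2 * (b : ℝ) ^ (√n : ℝ)) ^ Y := by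
          refine mul_le_mul_of_nonneg_left ?_ (by positivity)
          refine pow_le_pow_left₀ (by positivity) ?_ Y
          exact mul_le_mul_of_nonneg_left hc (by positivity)
      _ = (b : ℝ) ^ (2 * n + (2 + √n) * Y : ℝ) := by
          rw [Real.rpow_add hb0, Real.rpow_mul hb0.le (2 + √n) Y, Real.rpow_natCast _ Y,
            Real.rpow_add hb0]
          have h1 : (b : ℝ) ^ (2 * n : ℝ) = (b : ℝ) ^ (2 * n) := by
            rw [← Real.rpow_natCast]; push_cast; rfl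
          have h2 : (b : ℝ) ^ (2 : ℝ) = (b : ℝ) ^ 2 := by
            rw [← Real.rpow_natCast]; norm_num
          rw [h1, h2]
  have hexp : ε * n * A ≤ 2 * n + (2 + √n) * Y := (Real.rpow_le_rpow_left_iff hb1).1 hreal
  -- numerical contradiction
  set s : ℝ := √n with hs
  have hs0 : 0 ≤ s := Real.sqrt_nonneg _
  have hss : s * s = n := Real.mul_self_sqrt (Nat.cast_nonneg n)
  have hYr : (Y : ℝ) ^ 4 < n := by exact_mod_cast hY4
  have hY0 : (2 : ℝ) ≤ Y := by exact_mod_cast hY2'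
  have hY2 : (Y : ℝ) ^ 2 < s := by
    by_contra hle
    push Not at hle
    nlinarith [mul_self_nonneg (Y : ℝ)]
  have hYs : 2 * (Y : ℝ) < s := by nlinarith
  have hs4 : 4 < s := by linarith
  have hnpos : (0 : ℝ) < n := by rw [← hss]; nlinarith
  have h4 : 4 * (n : ℝ) ≤ ε * n * A := by nlinarith
  have h5 : (2 + s) * (Y : ℝ) ≤ n := by
    have h6 : 2 + s ≤ 2 * s := by linarith
    have h7 : (2 + s) * (Y : ℝ) ≤ 2 * s * Y := mul_le_mul_of_nonneg_right h6 (by linarith)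
    nlinarith
  linarith

theorem unbd_of_formBd (b : ℕ) (hb : 2 ≤ b) (h : FormBd b) : Unbd b := by
  intro w
  rcases Nat.eq_zero_or_pos w with hw | hw
  · subst hw
    exact ⟨3, by norm_num, Nat.prime_three, by decide, fun x c e _ _ _ _ => by simp⟩
  have hw' : (0 : ℝ) < w := by exact_mod_cast hw
  obtain ⟨K, hK⟩ := h (1 / w) (by positivity)
  obtain ⟨p, hp1, hp⟩ := Nat.exists_infinite_primes (K ^ (4 * w) + (w ^ 2) ^ 2 + 3)
  have hp2 : 2 < p := by omega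
  have hodd : Odd p := hp.odd_of_ne_two (by omega)
  have hwp : (w ^ 2) ^ 2 ≤ p := by omega
  have hww : w ≤ w ^ 2 := Nat.le_self_pow (by norm_num) w
  have hww2 : w ^ 2 ≤ (w ^ 2) ^ 2 := Nat.le_self_pow (by norm_num) _
  have hwlt : w < p := by omega
  refine ⟨p, hwlt, hp, hodd, fun x c e hx hxw hc hxz => ?_⟩
  by_contra hnd
  have hb0 : (0 : ℝ) < b := by exact_mod_cast (by omega : 0 < b)
  have hb1 : (1 : ℝ) ≤ b := by exact_mod_cast (by omega : 1 ≤ b)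
  have hxε : (b : ℝ) ^ (1 / (w : ℝ) * p) ≤ x := by
    have h1 : ((b : ℝ) ^ (1 / (w : ℝ) * p)) ^ w ≤ (x : ℝ) ^ w := by
      rw [← Real.rpow_natCast, ← Real.rpow_mul hb0.le]
      have h2 : 1 / (w : ℝ) * p * w = p := by field_simp
      rw [h2, Real.rpow_natCast]
      exact_mod_cast hxw
    exact (pow_le_pow_iff_left₀ (by positivity) (Nat.cast_nonneg _) (by omega)).1 h1
  have hcb : ((∑ j, (c j).natAbs : ℕ) : ℝ) ≤ (b : ℝ) ^ (√p : ℝ) := by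
    have h1 : ∑ j, (c j).natAbs ≤ w ^ 2 := by
      calc ∑ j, (c j).natAbs ≤ ∑ j : Fin w, w := Finset.sum_le_sum fun j _ => hc j
        _ = w ^ 2 := by simp [sq]
    have h2 : ((w ^ 2 : ℕ) : ℝ) ≤ √p := by
      apply Real.le_sqrt_of_sq_le
      exact_mod_cast hwp
    have h3 : ((w ^ 2 : ℕ) : ℝ) ≤ (b : ℝ) ^ ((w ^ 2 : ℕ) : ℝ) := by
      rw [Real.rpow_natCast]
      have h4 : w ^ 2 ≤ b ^ (w ^ 2) := by
        calc w ^ 2 ≤ 2 ^ (w ^ 2) := Nat.lt_two_pow_self.le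
          _ ≤ b ^ (w ^ 2) := Nat.pow_le_pow_left hb _
      exact_mod_cast h4
    have h5 : ((∑ j, (c j).natAbs : ℕ) : ℝ) ≤ ((w ^ 2 : ℕ) : ℝ) := by exact_mod_cast h1
    exact h5.trans (h3.trans (Real.rpow_le_rpow_of_exponent_le hb1 h2))
  have hprod : ∀ i : Fin w, ∏ j, ((b : ℤ) ^ e j) ^ (if i = j then 1 else 0) = (b : ℤ) ^ e i := by
    intro i
    rw [Finset.prod_eq_single i]
    · simp
    · intro j _ hj
      rw [if_neg (Ne.symm hj), pow_zero]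
    · intro h; exact absurd (Finset.mem_univ _) h
  have hsum : ∑ i, c i * ∏ j, ((b : ℤ) ^ e j) ^ (if i = j then 1 else 0) = ∑ j, c j * (b : ℤ) ^ e j :=
    Finset.sum_congr rfl fun i _ => by rw [hprod i]
  have h5 := hK p w 1 w x c (fun i j => if i = j then 1 else 0) e hodd (by omega) le_rfl
    (fun i => by simp) hcb hx hxε (by rw [hsum]; exact hxz) (by rw [hsum]; exact hnd)
  rw [hp.minFac_eq, mul_one] at h5
  omega

theorem not_exc_of_unbd (b : ℕ) (hb : 2 ≤ b) (h : Unbd b) : ¬ Exc b := by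
  intro hx
  obtain ⟨p, hp1, hp2, hp3, hp4⟩ := h (4 * b)
  obtain ⟨x, c, e, h1, h2, h3, h4, h5⟩ := exc_witness b p hx hp3 hp1
  exact h5 (hp4 x c e h1 h2 h3 h4)

end WGT
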