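import Pool.Agent.WGT.Ineq

/-!
# Excluded bases: large divisors of `(b ^ p + 1) / (b + 1)` with a multiple of three terms
-/

set_option autoImplicit false
set_option linter.unusedVariables false

namespace WGT

open Finset

theorem three_terms (W b : ℕ) (hW : 3 ≤ W) (c0 c1 c2 : ℕ) (e0 e1 e2 : ℕ) (h0 : c0 ≤ W) (h1 : c1 ≤ W)
    (h2 : c2 ≤ W) : ∃ (c : Fin W → ℤ) (e : Fin W → ℕ), (∀ j, (c j).natAbs ≤ W) ∧
      ∑ j, c j * (b : ℤ) ^ e j = (c0 : ℤ) * (b : ℤ) ^ e0 + c1 * (b : ℤ) ^ e1 + c2 * (b : ℤ) ^ e2 := by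
  let cf : ℕ → ℤ := fun j => if j = 0 then (c0 : ℤ) else if j = 1 then (c1 : ℤ) else if j = 2 then (c2 : ℤ) else 0
  let ef : ℕ → ℕ := fun j => if j = 0 then e0 else if j = 1 then e1 else e2
  refine ⟨fun j => cf j.1, fun j => ef j.1, ?_, ?_⟩
  · intro j
    show (cf j.1).natAbs ≤ W
    simp only [cf]
    split_ifs <;> simp [h0, h1, h2]
  · rw [Fin.sum_univ_eq_sum_range (fun j => cf j * (b : ℤ) ^ ef j) W]
    have hs : ∑ j ∈ range 3, cf j * (b : ℤ) ^ ef j = ∑ j ∈ range W, cf j * (b : ℤ) ^ ef j := by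
      apply Finset.sum_subset
      · intro j hj
        rw [Finset.mem_range] at hj ⊢
        omega
      · intro j _ hj
        rw [Finset.mem_range] at hj
        have : cf j = 0 := by
          simp only [cf]
          rw [if_neg (by omega), if_neg (by omega), if_neg (by omega)]
        rw [this, zero_mul]
    rw [← hs]
    simp [Finset.sum_range_succ, cf, ef]

/-- From a divisor `z` of `b ^ p + 1` one gets a divisor `x ≥ z / (b + 1)` of `(b ^ p + 1) / (b + 1)`. -/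
theorem gcd_part (b p z : ℕ) (hp : Odd p) (hz0 : 0 < z) (hz : z ∣ b ^ p + 1) :
    ∃ x, x ∣ (b ^ p + 1) / (b + 1) ∧ x ∣ z ∧ 0 < x ∧ z ≤ (b + 1) * x := by
  have h1 : b + 1 ∣ b ^ p + 1 := by
    have := Odd.nat_add_dvd_pow_add_pow b 1 hp
    simpa using this
  have h2 : (b + 1) * ((b ^ p + 1) / (b + 1)) = b ^ p + 1 := Nat.mul_div_cancel' h1
  have hpos : 0 < Nat.gcd z ((b ^ p + 1) / (b + 1)) := Nat.gcd_pos_of_pos_left _ hz0
  refine ⟨Nat.gcd z ((b ^ p + 1) / (b + 1)), Nat.gcd_dvd_right _ _, Nat.gcd_dvd_left _ _, hpos, ?_⟩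
  apply Nat.le_of_dvd (Nat.mul_pos (by omega) hpos)
  rw [← Nat.gcd_mul_left]
  apply Nat.dvd_gcd
  · exact Dvd.intro_left _ rfl
  · rw [h2]; exact hz

theorem exc_witness (b p : ℕ) (hx : Exc b) (hp : Odd p) (hpb : 4 * b < p) :
    ∃ (x : ℕ) (c : Fin (4 * b) → ℤ) (e : Fin (4 * b) → ℕ), x ∣ (b ^ p + 1) / (b + 1) ∧
      b ^ p ≤ x ^ (4 * b) ∧ (∀ j, (c j).natAbs ≤ 4 * b) ∧ (x : ℤ) ∣ ∑ j, c j * (b : ℤ) ^ e j ∧
      ¬ ((b : ℤ) ^ p + 1 ∣ ∑ j, c j * (b : ℤ) ^ e j) := by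
  rcases hx with ⟨a, m, ha, hm, hmo, rfl⟩ | ⟨k, hk, rfl⟩
  · have hmb : m < a ^ m := lt_of_lt_of_le (Nat.lt_two_pow_self) (Nat.pow_le_pow_left ha m)
    have hz : a ^ p + 1 ∣ (a ^ m) ^ p + 1 := by
      have := Odd.nat_add_dvd_pow_add_pow (a ^ p) 1 hmo
      rw [one_pow, ← pow_mul, mul_comm p m, pow_mul] at this
      exact this
    obtain ⟨x, hx1, hx2, hx0, hx3⟩ := gcd_part (a ^ m) p (a ^ p + 1) hp (by omega) hz
    have hr : a ^ (p % m) ≤ 4 * a ^ m := by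
      have : a ^ (p % m) ≤ a ^ m := Nat.pow_le_pow_right (by omega) (Nat.mod_lt _ (by omega)).le
      omega
    obtain ⟨c, e, hc, hs⟩ := three_terms (4 * a ^ m) (a ^ m) (by omega) (a ^ (p % m)) 1 0 (p / m) 0 0
      hr (by omega) (by omega)
    have hsum : ∑ j, c j * ((a ^ m : ℕ) : ℤ) ^ e j = ((a ^ p + 1 : ℕ) : ℤ) := by
      rw [hs]
      push_cast
      rw [← pow_mul, ← pow_add, Nat.mod_add_div]
      ring
    refine ⟨x, c, e, hx1, ?_, hc, ?_, ?_⟩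
    · have h1 : a ^ m + 1 ≤ a ^ (m + 1) := by
        rw [pow_succ]
        have : 1 ≤ a ^ m := Nat.one_le_pow _ _ (by omega)
        nlinarith
      have h2 : a ^ p ≤ a ^ (m + 1) * x := by
        calc a ^ p ≤ a ^ p + 1 := Nat.le_succ _
          _ ≤ (a ^ m + 1) * x := hx3
          _ ≤ a ^ (m + 1) * x := Nat.mul_le_mul_right _ h1
      have h3 : a ^ (p - (m + 1)) ≤ x := by
        have h4 : a ^ p = a ^ (m + 1) * a ^ (p - (m + 1)) := by
          rw [← pow_add]; congr 1; omega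
        rw [h4] at h2
        exact Nat.le_of_mul_le_mul_left h2 (by positivity)
      calc (a ^ m) ^ p = a ^ (m * p) := (pow_mul _ _ _).symm
        _ ≤ a ^ ((p - (m + 1)) * (4 * a ^ m)) := by
            apply Nat.pow_le_pow_right (by omega)
            have h5 : p ≤ 4 * (p - (m + 1)) := by omega
            calc m * p ≤ a ^ m * (4 * (p - (m + 1))) := Nat.mul_le_mul hmb.le h5
              _ = (p - (m + 1)) * (4 * a ^ m) := by ring
        _ = (a ^ (p - (m + 1))) ^ (4 * a ^ m) := pow_mul _ _ _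
        _ ≤ x ^ (4 * a ^ m) := Nat.pow_le_pow_left h3 _
    · rw [hsum]; exact_mod_cast hx2
    · rw [hsum]
      intro hdvd
      have h1 : (a ^ m) ^ p + 1 ∣ a ^ p + 1 := by exact_mod_cast hdvd
      have h2 := Nat.le_of_dvd (by omega) h1
      have h3 : a ^ p < (a ^ m) ^ p := by
        rw [← pow_mul]
        apply Nat.pow_lt_pow_right (by omega)
        nlinarith
      omega
  · obtain ⟨t, rfl⟩ := hp
    set y : ℕ := 2 ^ t * k ^ (2 * t + 1) with hy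
    have hk4 : 1 ≤ k ^ 4 := Nat.one_le_pow _ _ hk
    have hy1 : 1 ≤ y := Nat.mul_pos (by positivity) (by positivity)
    have hfac : (4 * k ^ 4) ^ (2 * t + 1) + 1 = (2 * y ^ 2 + 2 * y + 1) * (2 * y ^ 2 + 1 - 2 * y) := by
      have h1 : (4 * k ^ 4) ^ (2 * t + 1) = 4 * y ^ 4 := by
        rw [hy, mul_pow, mul_pow, ← pow_mul, ← pow_mul, ← pow_mul]
        have h2 : (4 : ℕ) ^ (2 * t + 1) = 4 * 2 ^ (t * 4) := by
          rw [show (4 : ℕ) = 2 ^ 2 by norm_num, ← pow_mul, ← pow_add]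
          congr 1; ring
        rw [h2]
        have h3 : k ^ (4 * (2 * t + 1)) = k ^ ((2 * t + 1) * 4) := by rw [mul_comm]
        rw [h3]; ring
      have h2 : 2 * y ≤ 2 * y ^ 2 + 1 := by nlinarith
      rw [h1]
      zify [h2]
      ring
    have hz : 2 * y ^ 2 + 2 * y + 1 ∣ (4 * k ^ 4) ^ (2 * t + 1) + 1 := ⟨_, hfac⟩
    obtain ⟨x, hx1, hx2, hx0, hx3⟩ := gcd_part (4 * k ^ 4) (2 * t + 1) (2 * y ^ 2 + 2 * y + 1) ⟨t, rfl⟩
      (by omega) hz
    have hsq : (2 * y ^ 2) ^ 2 = (4 * k ^ 4) ^ (2 * t + 1) := by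
      rw [hy, mul_pow, mul_pow, mul_pow, mul_pow, ← pow_mul, ← pow_mul, ← pow_mul, ← pow_mul, ← pow_mul]
      have h2 : (4 : ℕ) ^ (2 * t + 1) = 4 * 2 ^ (t * 4) := by
        rw [show (4 : ℕ) = 2 ^ 2 by norm_num, ← pow_mul, ← pow_add]
        congr 1; ring
      rw [h2]
      have h3 : k ^ (4 * (2 * t + 1)) = k ^ ((2 * t + 1) * 2 * 2) := by congr 1; ring
      rw [h3]
      have h4 : (2 : ℕ) ^ (t * 4) = 2 ^ (t * 2 * 2) := by congr 1; ring
      rw [h4]; ring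
    -- the three terms
    have hA : 2 * y ^ 2 = 2 * k ^ 2 * (4 * k ^ 4) ^ t := by
      rw [hy, mul_pow, mul_pow, ← pow_mul, ← pow_mul, ← pow_mul]
      have h2 : (4 : ℕ) ^ t = 2 ^ (t * 2) := by
        rw [show (4 : ℕ) = 2 ^ 2 by norm_num, ← pow_mul]; congr 1; ring
      rw [h2]
      have h3 : k ^ ((2 * t + 1) * 2) = k ^ 2 * k ^ (4 * t) := by
        rw [← pow_add]; congr 1; ring
      rw [h3]; ring
    obtain ⟨c1, e1, hc1, hB⟩ : ∃ c1 e1 : ℕ, c1 ≤ 4 * (4 * k ^ 4) ∧ 2 * y = c1 * (4 * k ^ 4) ^ e1 := by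
      rcases Nat.even_or_odd t with ⟨s, hs⟩ | ⟨s, hs⟩
      · refine ⟨2 * k, s, ?_, ?_⟩
        · have : k ≤ k ^ 4 := Nat.le_self_pow (by norm_num) k
          omega
        · rw [hy, hs, mul_pow, ← pow_mul]
          have h2 : (4 : ℕ) ^ s = 2 ^ (s + s) := by
            rw [show (4 : ℕ) = 2 ^ 2 by norm_num, ← pow_mul]; congr 1; ring
          rw [h2]
          have h3 : k ^ (2 * (s + s) + 1) = k * k ^ (4 * s) := by
            rw [← pow_succ']; congr 1; ring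
          rw [h3]; ring
      · refine ⟨4 * k ^ 3, s, ?_, ?_⟩
        · have : k ^ 3 ≤ k ^ 4 := Nat.pow_le_pow_right hk (by norm_num)
          omega
        · rw [hy, hs, mul_pow, ← pow_mul]
          have h2 : (4 : ℕ) ^ s = 2 ^ (2 * s) := by
            rw [show (4 : ℕ) = 2 ^ 2 by norm_num, ← pow_mul]
          rw [h2]
          have h3 : k ^ (2 * (2 * s + 1) + 1) = k ^ 3 * k ^ (4 * s) := by
            rw [← pow_add]; congr 1; ring
          rw [h3]; ring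
    have hA' : 2 * k ^ 2 ≤ 4 * (4 * k ^ 4) := by
      have : k ^ 2 ≤ k ^ 4 := Nat.pow_le_pow_right hk (by norm_num)
      omega
    obtain ⟨c, e, hc, hs⟩ := three_terms (4 * (4 * k ^ 4)) (4 * k ^ 4) (by omega) (2 * k ^ 2) c1 1 t e1 0
      hA' hc1 (by omega)
    have hsum : ∑ j, c j * ((4 * k ^ 4 : ℕ) : ℤ) ^ e j = ((2 * y ^ 2 + 2 * y + 1 : ℕ) : ℤ) := by
      rw [hs, hA, hB]
      push_cast
      ring
    refine ⟨x, c, e, hx1, ?_, hc, ?_, ?_⟩
    · have h1 : (4 * k ^ 4) ^ (2 * t + 1) ≤ ((4 * k ^ 4) ^ 2 * x) ^ 2 := by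
        rw [← hsq]
        apply Nat.pow_le_pow_left
        calc 2 * y ^ 2 ≤ 2 * y ^ 2 + 2 * y + 1 := by omega
          _ ≤ (4 * k ^ 4 + 1) * x := hx3
          _ ≤ (4 * k ^ 4) ^ 2 * x := by
              apply Nat.mul_le_mul_right
              nlinarith
      have h2 : (4 * k ^ 4) ^ (2 * t + 1 - 4) ≤ x ^ 2 := by
        have h4 : (4 * k ^ 4) ^ (2 * t + 1) = (4 * k ^ 4) ^ 4 * (4 * k ^ 4) ^ (2 * t + 1 - 4) := by
          rw [← pow_add]; congr 1; omega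
        have h5 : ((4 * k ^ 4) ^ 2 * x) ^ 2 = (4 * k ^ 4) ^ 4 * x ^ 2 := by
          rw [mul_pow, ← pow_mul]
        rw [h4, h5] at h1
        exact Nat.le_of_mul_le_mul_left h1 (by positivity)
      calc (4 * k ^ 4) ^ (2 * t + 1) ≤ (4 * k ^ 4) ^ ((2 * t + 1 - 4) * (2 * (4 * k ^ 4))) := by
            apply Nat.pow_le_pow_right (by omega)
            have h5 : 8 ≤ 2 * (4 * k ^ 4) := by omega
            calc 2 * t + 1 ≤ (2 * t + 1 - 4) * 8 := by omega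
              _ ≤ (2 * t + 1 - 4) * (2 * (4 * k ^ 4)) := Nat.mul_le_mul_left _ h5
        _ = ((4 * k ^ 4) ^ (2 * t + 1 - 4)) ^ (2 * (4 * k ^ 4)) := pow_mul _ _ _
        _ ≤ (x ^ 2) ^ (2 * (4 * k ^ 4)) := Nat.pow_le_pow_left h2 _
        _ = x ^ (4 * (4 * k ^ 4)) := by rw [← pow_mul]; congr 1; ring
    · rw [hsum]; exact_mod_cast hx2
    · rw [hsum]
      intro hdvd
      have h1 : (4 * k ^ 4) ^ (2 * t + 1) + 1 ∣ 2 * y ^ 2 + 2 * y + 1 := by exact_mod_cast hdvd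
      have h2 := Nat.le_of_dvd (by omega) h1
      rw [hfac] at h2
      have hy2 : 2 ≤ y := by
        have : 2 ≤ 2 ^ t := by
          calc 2 = 2 ^ 1 := (pow_one _).symm
            _ ≤ 2 ^ t := Nat.pow_le_pow_right (by norm_num) (by omega)
        have h6 : 1 ≤ k ^ (2 * t + 1) := Nat.one_le_pow _ _ hk
        nlinarith
      have h7 : 2 ≤ 2 * y ^ 2 + 1 - 2 * y := by
        have : 2 * y + 1 ≤ 2 * y ^ 2 := by nlinarith
        omega
      nlinarith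

end WGT
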