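import Pool.Agent.WGT.Irr

/-!
# The inequality for common divisors of `b ^ n + 1` and of a polynomial expression in powers of `b`
-/

set_option autoImplicit false
set_option linter.unusedVariables false

namespace WGT

open Finset Polynomial

/-- simultaneous approximation (Dirichlet), for fractions with denominator `n` -/
theorem dirichlet (n k A : ℕ) (hn : 0 < n) (hA : 0 < A) (a : Fin k → ℕ) :
    ∃ d : ℕ, 1 ≤ d ∧ d ≤ A ^ k ∧ ∃ m : Fin k → ℕ, ∀ j, |(d : ℤ) * a j - m j * n| * A ≤ n := by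
  classical
  have hlt : ∀ x : ℕ, A * (x % n) / n < A := by
    intro x
    rw [Nat.div_lt_iff_lt_mul hn]
    exact Nat.mul_lt_mul_of_pos_left (Nat.mod_lt _ hn) hA
  let f : Fin (A ^ k + 1) → (Fin k → Fin A) := fun t j => ⟨A * ((t.1 * a j) % n) / n, hlt _⟩
  have hcard : Fintype.card (Fin k → Fin A) < Fintype.card (Fin (A ^ k + 1)) := by
    simp
  obtain ⟨t1, t2, hne, hf⟩ := Fintype.exists_ne_map_eq_of_card_lt f hcard
  wlog hlt12 : t1 < t2 generalizing t1 t2 with H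
  · exact H t2 t1 hne.symm hf.symm (lt_of_le_of_ne (not_lt.1 hlt12) hne.symm)
  have h12 : t1.1 < t2.1 := hlt12
  refine ⟨t2.1 - t1.1, by omega, by have := t2.2; omega,
    fun j => (t2.1 * a j) / n - (t1.1 * a j) / n, fun j => ?_⟩
  have h1 : A * ((t1.1 * a j) % n) / n = A * ((t2.1 * a j) % n) / n := by
    have h2 := congrFun hf j
    exact congrArg Fin.val h2
  set r1 := (t1.1 * a j) % n with hr1
  set r2 := (t2.1 * a j) % n with hr2
  set q1 := (t1.1 * a j) / n with hq1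
  set q2 := (t2.1 * a j) / n with hq2
  have e1 : t1.1 * a j = n * q1 + r1 := (Nat.div_add_mod _ _).symm
  have e2 : t2.1 * a j = n * q2 + r2 := (Nat.div_add_mod _ _).symm
  have hq : q1 ≤ q2 := Nat.div_le_div_right (Nat.mul_le_mul_right _ h12.le)
  have e1' : (t1.1 : ℤ) * a j = n * q1 + r1 := by exact_mod_cast e1
  have e2' : (t2.1 : ℤ) * a j = n * q2 + r2 := by exact_mod_cast e2
  have h3 : ((t2.1 - t1.1 : ℕ) : ℤ) * a j - ((q2 - q1 : ℕ) : ℤ) * n = (r2 : ℤ) - r1 := by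
    rw [Nat.cast_sub h12.le, Nat.cast_sub hq]
    linear_combination e2' - e1'
  rw [h3]
  set B := A * r1 / n with hB
  have f1 : n * B ≤ A * r1 := Nat.mul_div_le _ _
  have f2 : A * r1 < n * (B + 1) := by
    rw [mul_comm n]; exact Nat.lt_mul_of_div_lt (Nat.lt_succ_self _) hn |>.trans_eq rfl
  have f3 : n * B ≤ A * r2 := by rw [h1]; exact Nat.mul_div_le _ _
  have f4 : A * r2 < n * (B + 1) := by
    rw [h1, mul_comm n]; exact Nat.lt_mul_of_div_lt (Nat.lt_succ_self _) hn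
  have f1' : (n : ℤ) * B ≤ A * r1 := by exact_mod_cast f1
  have f2' : (A : ℤ) * r1 < n * (B + 1) := by exact_mod_cast f2
  have f3' : (n : ℤ) * B ≤ A * r2 := by exact_mod_cast f3
  have f4' : (A : ℤ) * r2 < n * (B + 1) := by exact_mod_cast f4
  have h5 : |((r2 : ℤ) - r1) * A| ≤ n := by
    rw [abs_le]
    constructor <;> nlinarith
  rwa [abs_mul, Nat.abs_cast] at h5

/-- the floors -/
theorem floors (n d A i e m : ℕ) (hd : 0 < d) (hA : 0 < A) (h : |(d : ℤ) * e - m * n| * A ≤ n) :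
    u n d (i + m) ≤ (n / (A * d) + 1) + e + u n d i ∧ e + u n d i ≤ (n / (A * d) + 1) + u n d (i + m) := by
  unfold u
  set U := i * n / d with hU
  set V := (i + m) * n / d with hV
  set t := n / (A * d) with ht
  have a1 : d * U ≤ i * n := Nat.mul_div_le _ _
  have a2 : i * n < d * (U + 1) := by
    rw [mul_comm d]; exact Nat.lt_mul_of_div_lt (Nat.lt_succ_self _) hd
  have a3 : d * V ≤ (i + m) * n := Nat.mul_div_le _ _
  have a4 : (i + m) * n < d * (V + 1) := by
    rw [mul_comm d]; exact Nat.lt_mul_of_div_lt (Nat.lt_succ_self _) hd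
  have a5 : n < A * d * (t + 1) := by
    rw [mul_comm (A * d)]; exact Nat.lt_mul_of_div_lt (Nat.lt_succ_self _) (Nat.mul_pos hA hd)
  have b1 : (d : ℤ) * U ≤ i * n := by exact_mod_cast a1
  have b2 : (i : ℤ) * n < d * (U + 1) := by exact_mod_cast a2
  have b3 : (d : ℤ) * V ≤ (i + m) * n := by exact_mod_cast a3
  have b4 : ((i : ℤ) + m) * n < d * (V + 1) := by exact_mod_cast a4
  have b5 : (n : ℤ) < A * d * (t + 1) := by exact_mod_cast a5
  set δ : ℤ := (d : ℤ) * e - m * n with hδ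
  have hA' : (0 : ℤ) < A := by exact_mod_cast hA
  have hd' : (0 : ℤ) < d := by exact_mod_cast hd
  have b6 : |δ| < d * (t + 1) := by
    have : |δ| * A < (d * (t + 1)) * A := by
      calc |δ| * A ≤ n := h
        _ < A * d * (t + 1) := b5
        _ = (d * (t + 1)) * A := by ring
    exact lt_of_mul_lt_mul_right this hA'.le
  have b7 := (abs_lt.1 b6).1
  have b8 := (abs_lt.1 b6).2
  constructor
  · have h1 : (d : ℤ) * (V - U - e) < d * (t + 2) := by
      rw [hδ] at b7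
      nlinarith
    have h2 : (V : ℤ) - U - e < t + 2 := lt_of_mul_lt_mul_left h1 hd'.le
    omega
  · have h1 : (d : ℤ) * (e + U - V) < d * (t + 2) := by
      rw [hδ] at b8
      nlinarith
    have h2 : (e : ℤ) + U - V < t + 2 := lt_of_mul_lt_mul_left h1 hd'.le
    omega

/-- The main inequality, when a good approximation of the exponents is given. -/
theorem core_ineq {ι : Type*} [Fintype ι] (b n A d g : ℕ) (hb : 2 ≤ b) (hx : ¬ Exc b) (hn : Odd n)
    (hd : 0 < d) (hA : 1 ≤ A) (hcop : n.Coprime d) (c : ι → ℤ) (e m : ι → ℕ)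
    (happ : ∀ j, |(d : ℤ) * e j - m j * n| * A ≤ n)
    (hg1 : (g : ℤ) ∣ (b : ℤ) ^ n + 1) (hg2 : (g : ℤ) ∣ ∑ j, c j * (b : ℤ) ^ e j)
    (hnd : ¬ ((b : ℤ) ^ n + 1 ∣ ∑ j, c j * (b : ℤ) ^ e j)) :
    (g : ℤ) ^ A ≤ (b : ℤ) ^ (2 * n) * ((b : ℤ) ^ 2 * ∑ j, |c j|) ^ (A * d) := by
  have hb' : (2 : ℤ) ≤ b := by exact_mod_cast hb
  have hn0 : 0 < n := hn.pos
  set H : ℤ := ∑ j, |c j| with hH
  have hH0 : 0 ≤ H := Finset.sum_nonneg fun _ _ => abs_nonneg _
  set κ := n / (A * d) + 1 with hκ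
  have hu : ∀ j i, i < d → u n d (i + m j) ≤ κ + e j + u n d i := fun j i _ =>
    (floors n d A i (e j) (m j) hd hA (happ j)).1
  have hu' : ∀ j i, i < d → e j + u n d i ≤ κ + u n d (i + m j) := fun j i _ =>
    (floors n d A i (e j) (m j) hd hA (happ j)).2
  have hκd : κ * d ≤ n / A + d := by
    have h1 : n / (A * d) * d ≤ n / A := by
      rw [← Nat.div_div_eq_div_mul]
      exact Nat.div_mul_le_self _ _
    rw [hκ, add_mul, one_mul]
    omega
  have hdd := dvd_det b n d κ g c e m hd hu hg1 hg2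
  have hdet0 : (M b n d κ c e m).det ≠ 0 := fun h0 =>
    hnd (dvd_of_det_eq_zero b n d κ hb hn hcop hd hx c e m hu h0)
  have hle : (g : ℤ) ≤ (H * (b : ℤ) ^ (2 * κ)) ^ d := by
    refine le_trans (Int.le_of_dvd (abs_pos.2 hdet0) ((dvd_abs _ _).2 hdd)) ?_
    exact abs_det_le b n d κ (by omega) c e m hd hu'
  have hle2 : (H * (b : ℤ) ^ (2 * κ)) ^ d ≤ H ^ d * (b : ℤ) ^ (2 * (n / A) + 2 * d) := by
    rw [mul_pow, ← pow_mul]
    refine mul_le_mul_of_nonneg_left ?_ (by positivity)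
    refine pow_le_pow_right₀ (by linarith) ?_
    calc 2 * κ * d = 2 * (κ * d) := by ring
      _ ≤ 2 * (n / A + d) := Nat.mul_le_mul_left _ hκd
      _ = 2 * (n / A) + 2 * d := by ring
  calc (g : ℤ) ^ A ≤ (H ^ d * (b : ℤ) ^ (2 * (n / A) + 2 * d)) ^ A :=
        pow_le_pow_left₀ (Nat.cast_nonneg _) (hle.trans hle2) A
    _ = (b : ℤ) ^ (2 * (n / A * A)) * ((b : ℤ) ^ 2 * H) ^ (A * d) := by
        rw [mul_pow, mul_pow, ← pow_mul, ← pow_mul, ← pow_mul, add_mul, pow_add]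
        have h2 : 2 * (n / A) * A = 2 * (n / A * A) := by ring
        have h3 : 2 * d * A = 2 * (A * d) := by ring
        have h4 : d * A = A * d := mul_comm _ _
        rw [h2, h3, h4]
        ring
    _ ≤ (b : ℤ) ^ (2 * n) * ((b : ℤ) ^ 2 * H) ^ (A * d) := by
        refine mul_le_mul_of_nonneg_right ?_ (by positivity)
        refine pow_le_pow_right₀ (by linarith) ?_
        have := Nat.div_mul_le_self n A
        omega

/-- The inequality for `z = ∑ c_i ∏ (b ^ e_j) ^ m_ij`, a form of degree `D ≥ 1` in the `w` powers `b ^ e_j`. -/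
theorem form_ineq (b n w D A N g : ℕ) (hb : 2 ≤ b) (hx : ¬ Exc b) (hn : Odd n) (hD : 1 ≤ D)
    (hq : ∀ q : ℕ, q.Prime → q ∣ n → (A * D) ^ w ≤ q) (c : Fin N → ℤ) (m : Fin N → Fin w → ℕ)
    (e : Fin w → ℕ) (hm : ∀ i, ∑ j, m i j = D)
    (hg1 : (g : ℤ) ∣ (b : ℤ) ^ n + 1) (hg2 : (g : ℤ) ∣ ∑ i, c i * ∏ j, ((b : ℤ) ^ e j) ^ m i j)
    (hnd : ¬ ((b : ℤ) ^ n + 1 ∣ ∑ i, c i * ∏ j, ((b : ℤ) ^ e j) ^ m i j)) :
    (g : ℤ) ^ A ≤ (b : ℤ) ^ (2 * n) * ((b : ℤ) ^ 2 * ∑ i, |c i|) ^ ((A * D) ^ w) := by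
  have hb' : (2 : ℤ) ≤ b := by exact_mod_cast hb
  have hbn : (0 : ℤ) < (b : ℤ) ^ n := by positivity
  have hn0 : 0 < n := hn.pos
  set H : ℤ := ∑ i, |c i| with hH
  have hH1 : 1 ≤ H := by
    by_contra hlt
    have h0 : H = 0 := le_antisymm (by omega) (Finset.sum_nonneg fun _ _ => abs_nonneg _)
    have h1 : ∀ j, c j = 0 := by
      intro j
      have h2 := (Finset.sum_eq_zero_iff_of_nonneg (fun (i : Fin N) _ => abs_nonneg (c i))).1 h0 j
        (Finset.mem_univ _)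
      exact abs_eq_zero.1 h2
    apply hnd
    simp [h1]
  have hb2 : (1 : ℤ) ≤ (b : ℤ) ^ 2 := one_le_pow₀ (by linarith)
  have hbH : (1 : ℤ) ≤ (b : ℤ) ^ 2 * H := by nlinarith
  have h1bn : (1 : ℤ) ≤ (b : ℤ) ^ (2 * n) := one_le_pow₀ (by linarith)
  -- `w ≥ 1`
  rcases Nat.eq_zero_or_pos w with hw | hw
  · subst hw
    rcases Nat.eq_zero_or_pos N with hN | hN
    · subst hN; exact absurd (by simp) hnd
    · have := hm ⟨0, hN⟩
      simp at this
      omega
  rcases Nat.lt_or_ge A 2 with hA2 | hA2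
  · have hpow : (1 : ℤ) ≤ ((b : ℤ) ^ 2 * H) ^ ((A * D) ^ w) := one_le_pow₀ hbH
    rcases Nat.lt_or_ge A 1 with hA1 | hA1
    · have hA0 : A = 0 := by omega
      rw [hA0] at hpow ⊢
      rw [pow_zero]
      nlinarith
    · have hA1 : A = 1 := by omega
      rw [hA1] at hpow ⊢
      rw [pow_one]
      have h1 : (g : ℤ) ≤ (b : ℤ) ^ n + 1 := Int.le_of_dvd (by linarith) hg1
      have h2 : (b : ℤ) ^ (2 * n) = (b : ℤ) ^ n * (b : ℤ) ^ n := by rw [two_mul, pow_add]
      have h3 : (2 : ℤ) ≤ (b : ℤ) ^ n := by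
        calc (2 : ℤ) ≤ b := hb'
          _ = (b : ℤ) ^ 1 := (pow_one _).symm
          _ ≤ (b : ℤ) ^ n := pow_le_pow_right₀ (by linarith) (by omega)
      have h4 : (b : ℤ) ^ n + 1 ≤ (b : ℤ) ^ (2 * n) := by rw [h2]; nlinarith
      nlinarith
  have hA : 1 ≤ A := by omega
  obtain ⟨k, rfl⟩ : ∃ k, w = k + 1 := ⟨w - 1, by omega⟩
  have hAD : 2 ≤ A * D := by nlinarith
  -- the approximation
  set e' : Fin (k + 1) → ℕ := fun j => e j + (n - 1) * e 0 with he'
  obtain ⟨d, hd1, hdA, μ, hμ⟩ := dirichlet n k (A * D) (by omega) (by omega) (fun j => e' j.succ)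
  set μ' : Fin (k + 1) → ℕ := Fin.cons (d * e 0) μ with hμ'
  have happ0 : ∀ j, |(d : ℤ) * e' j - μ' j * n| * (A * D) ≤ n := by
    intro j
    refine Fin.cases ?_ (fun j => ?_) j
    · have h1 : (d : ℤ) * e' 0 - μ' 0 * n = 0 := by
        have h2 : e' 0 = n * e 0 := by
          rw [he']
          obtain ⟨t, rfl⟩ : ∃ t, n = t + 1 := ⟨n - 1, by omega⟩
          simp only [Nat.add_sub_cancel]
          ring
        rw [h2, hμ', Fin.cons_zero]
        push_cast
        ring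
      rw [h1, abs_zero, zero_mul]
      exact Nat.cast_nonneg _
    · have h1 : μ' j.succ = μ j := by rw [hμ', Fin.cons_succ]
      rw [h1]
      have := hμ j
      push_cast at this
      exact this
  -- exponents of the terms
  set E : Fin N → ℕ := fun i => ∑ j, m i j * e' j with hE
  set P : Fin N → ℕ := fun i => ∑ j, m i j * μ' j with hP
  have happ : ∀ i, |(d : ℤ) * E i - P i * n| * A ≤ n := by
    intro i
    have h1 : (d : ℤ) * E i - P i * n = ∑ j, (m i j : ℤ) * ((d : ℤ) * e' j - μ' j * n) := by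
      rw [hE, hP]
      push_cast
      rw [Finset.mul_sum, Finset.sum_mul, ← Finset.sum_sub_distrib]
      refine Finset.sum_congr rfl fun j _ => ?_
      ring
    have h2 : |(d : ℤ) * E i - P i * n| ≤ ∑ j, (m i j : ℤ) * |(d : ℤ) * e' j - μ' j * n| := by
      rw [h1]
      refine (Finset.abs_sum_le_sum_abs _ _).trans (le_of_eq ?_)
      refine Finset.sum_congr rfl fun j _ => ?_
      rw [abs_mul, Nat.abs_cast]
    have h3 : |(d : ℤ) * E i - P i * n| * (A * D) ≤ D * n := by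
      calc |(d : ℤ) * E i - P i * n| * (A * D)
          ≤ (∑ j, (m i j : ℤ) * |(d : ℤ) * e' j - μ' j * n|) * (A * D) :=
            mul_le_mul_of_nonneg_right h2 (by positivity)
        _ = ∑ j, (m i j : ℤ) * (|(d : ℤ) * e' j - μ' j * n| * (A * D)) := by
            rw [Finset.sum_mul]
            refine Finset.sum_congr rfl fun j _ => ?_
            ring
        _ ≤ ∑ j, (m i j : ℤ) * n :=
            Finset.sum_le_sum fun j _ => mul_le_mul_of_nonneg_left (happ0 j) (Nat.cast_nonneg _)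
        _ = D * n := by
            rw [← Finset.sum_mul, ← hm i]
            push_cast
            rfl
    have hDpos : (0 : ℤ) < D := by exact_mod_cast hD
    have h4 : (D : ℤ) * (|(d : ℤ) * E i - P i * n| * A) ≤ D * n := by
      calc (D : ℤ) * (|(d : ℤ) * E i - P i * n| * A) = |(d : ℤ) * E i - P i * n| * (A * D) := by ring
        _ ≤ D * n := h3
    exact le_of_mul_le_mul_left h4 hDpos
  have hlt : (A * D) ^ k < (A * D) ^ (k + 1) := Nat.pow_lt_pow_right (by omega) (by omega)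
  have hcop : n.Coprime d := by
    rw [Nat.coprime_iff_gcd_eq_one]
    by_contra hne
    obtain ⟨q, hqp, hqd⟩ := Nat.exists_prime_and_dvd hne
    have h1 := hq q hqp (hqd.trans (Nat.gcd_dvd_left _ _))
    have h2 := Nat.le_of_dvd hd1 (hqd.trans (Nat.gcd_dvd_right _ _))
    omega
  -- the new sum
  have hsum : ∑ i, c i * (b : ℤ) ^ E i =
      (b : ℤ) ^ (D * ((n - 1) * e 0)) * ∑ i, c i * ∏ j, ((b : ℤ) ^ e j) ^ m i j := by
    rw [Finset.mul_sum]
    refine Finset.sum_congr rfl fun i _ => ?_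
    have h1 : ∏ j, ((b : ℤ) ^ e j) ^ m i j = (b : ℤ) ^ (∑ j, m i j * e j) := by
      rw [← Finset.prod_pow_eq_pow_sum]
      refine Finset.prod_congr rfl fun j _ => ?_
      rw [← pow_mul, mul_comm]
    have h2 : E i = D * ((n - 1) * e 0) + ∑ j, m i j * e j := by
      rw [hE, he']
      simp only [mul_add, Finset.sum_add_distrib]
      rw [← Finset.sum_mul, hm i, add_comm]
    rw [h1, h2, pow_add]
    ring
  have hg3 : (g : ℤ) ∣ ∑ i, c i * (b : ℤ) ^ E i := by
    rw [hsum]; exact Dvd.dvd.mul_left hg2 _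
  have hnd' : ¬ ((b : ℤ) ^ n + 1 ∣ ∑ i, c i * (b : ℤ) ^ E i) := by
    intro h1
    apply hnd
    rw [hsum] at h1
    have h2 : IsCoprime ((b : ℤ) ^ n + 1) ((b : ℤ) ^ (D * ((n - 1) * e 0))) := by
      apply IsCoprime.pow_right
      refine ⟨1, -(b : ℤ) ^ (n - 1), ?_⟩
      have h3 : (b : ℤ) ^ n = (b : ℤ) ^ (n - 1) * b := by
        rw [← pow_succ, Nat.sub_add_cancel (by omega)]
      rw [h3]; ring
    exact h2.dvd_of_dvd_mul_left h1
  have hmain := core_ineq b n A d g hb hx hn hd1 hA hcop c E P happ hg1 hg3 hnd'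
  refine hmain.trans (mul_le_mul_of_nonneg_left ?_ (by positivity))
  refine pow_le_pow_right₀ hbH ?_
  calc A * d ≤ A * (A * D) ^ k := Nat.mul_le_mul_left _ hdA
    _ ≤ (A * D) * (A * D) ^ k := by
        refine Nat.mul_le_mul_right _ ?_
        nlinarith
    _ = (A * D) ^ (k + 1) := by rw [pow_succ, mul_comm]

end WGT
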