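import Pool.Agent.WGT.Mat

/-!
# If `b` is not excluded and the determinant vanishes then `b ^ n + 1` divides `∑ c_j b ^ e_j`
-/

set_option autoImplicit false
set_option linter.unusedVariables false

namespace WGT

open Finset Polynomial

/-- the two excluded types of bases -/
def Exc (b : ℕ) : Prop :=
  (∃ a m : ℕ, 2 ≤ a ∧ 3 ≤ m ∧ Odd m ∧ b = a ^ m) ∨ ∃ k : ℕ, 1 ≤ k ∧ b = 4 * k ^ 4

/-- `b ^ n X ^ d + 1` -/
noncomputable def F (b n d : ℕ) : ℚ[X] := C ((b : ℚ) ^ n) * X ^ d + 1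

theorem F_natDegree (b n d : ℕ) (hb : 2 ≤ b) (hd : 0 < d) : (F b n d).natDegree = d := by
  unfold F
  have hb0 : ((b : ℚ) ^ n) ≠ 0 := by positivity
  rw [← C_1, natDegree_add_C, natDegree_C_mul_X_pow _ _ hb0]

theorem F_ne_zero (b n d : ℕ) (hb : 2 ≤ b) (hd : 0 < d) : F b n d ≠ 0 := by
  intro h
  have := F_natDegree b n d hb hd
  rw [h, natDegree_zero] at this
  omega

theorem F_irreducible (b n d : ℕ) (hb : 2 ≤ b) (hn : Odd n) (hnd : n.Coprime d) (hd : 0 < d)
    (hx : ¬ Exc b) : Irreducible (F b n d) := by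
  refine ⟨?_, ?_⟩
  · intro h
    have h1 := natDegree_eq_zero_of_isUnit h
    rw [F_natDegree b n d hb hd] at h1
    omega
  · intro P Q hPQ
    by_contra hno
    push Not at hno
    obtain ⟨hP, hQ⟩ := hno
    have h0 : P * Q ≠ 0 := by rw [← hPQ]; exact F_ne_zero b n d hb hd
    have hP0 : P ≠ 0 := left_ne_zero_of_mul h0
    have hQ0 : Q ≠ 0 := right_ne_zero_of_mul h0
    have hP1 : P.natDegree ≠ 0 := by
      intro h
      apply hP
      rw [eq_C_of_natDegree_eq_zero h, isUnit_C, isUnit_iff_ne_zero]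
      intro h2
      apply hP0
      rw [eq_C_of_natDegree_eq_zero h, h2, C_0]
    have hQ1 : Q.natDegree ≠ 0 := by
      intro h
      apply hQ
      rw [eq_C_of_natDegree_eq_zero h, isUnit_C, isUnit_iff_ne_zero]
      intro h2
      apply hQ0
      rw [eq_C_of_natDegree_eq_zero h, h2, C_0]
    apply hx
    exact WGS.exc_of_factor b n d hb hn hnd hd P Q 1 hP1 hQ1 one_ne_zero (by
      rw [C_1, one_mul, ← hPQ]; rfl)

/-- Over `ℤ`: divisibility of polynomials by `b ^ n X ^ d + 1` descends from `ℚ`. -/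
theorem dvd_of_F_dvd (b n d : ℕ) (hd : 0 < d) (G : ℤ[X]) (h : F b n d ∣ G.map (Int.castRingHom ℚ)) :
    ((b : ℤ) ^ n + 1) ∣ G.eval 1 := by
  set f : ℤ[X] := C ((b : ℤ) ^ n) * X ^ d + 1 with hf
  have h1 : f.map (Int.castRingHom ℚ) = F b n d := by
    rw [hf, F]; simp
  have hprim : f.IsPrimitive := by
    rw [isPrimitive_iff_isUnit_of_C_dvd]
    intro r hr
    rw [C_dvd_iff_dvd_coeff] at hr
    have h2 := hr 0
    have h3 : f.coeff 0 = 1 := by
      rw [hf, coeff_add, coeff_C_mul, coeff_X_pow, if_neg (by omega), mul_zero, zero_add, coeff_one_zero]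
    rw [h3] at h2
    exact isUnit_of_dvd_one h2
  have h2 : f ∣ G := by
    rw [IsPrimitive.Int.dvd_iff_map_cast_dvd_map_cast f G hprim, h1]
    exact h
  obtain ⟨q, hq⟩ := h2
  refine ⟨q.eval 1, ?_⟩
  rw [hq, eval_mul, hf]
  simp

/-- In a field with `b ^ n s ^ d = -1`: a kernel vector of `M` gives a relation between `b ^ (u i) s ^ i`, `i < d`. -/
theorem kernel_relation {ι : Type*} [Fintype ι] {K : Type*} [Field K] (b n d κ : ℕ) (hn : 0 < n) (hd : 0 < d)
    (c : ι → ℤ) (e m : ι → ℕ)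
    (hu : ∀ j i, i < d → u n d (i + m j) ≤ κ + e j + u n d i)
    (s : K) (hrel : ((b : ℕ) : K) ^ n * s ^ d = -1)
    (hγ0 : ∑ j, (c j : K) * ((b : ℕ) : K) ^ e j * s ^ m j ≠ 0)
    (v : Fin d → ℤ) (hv : Matrix.vecMul v (M b n d κ c e m) = 0) :
    ∑ i : Fin d, (v i : K) * (((b : ℕ) : K) ^ (u n d i.1) * s ^ i.1) = 0 := by
  have hspec := M_spec b n d κ c e m s hd hrel hu
  set γ : K := ∑ j, (c j : K) * ((b : ℕ) : K) ^ e j * s ^ m j with hγ
  set θ : Fin d → K := fun i => ((b : ℕ) : K) ^ (u n d i.1) * s ^ i.1 with hθ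
  have hb0 : ((b : ℕ) : K) ≠ 0 := by
    intro h0
    rw [h0, zero_pow (by omega), zero_mul] at hrel
    exact one_ne_zero (neg_eq_zero.1 hrel.symm)
  have h1 : ∑ i, (v i : K) * (((b : ℕ) : K) ^ κ * γ * θ i) = 0 := by
    calc ∑ i, (v i : K) * (((b : ℕ) : K) ^ κ * γ * θ i)
        = ∑ i, ∑ i', (v i : K) * (((M b n d κ c e m i i' : ℤ) : K) * θ i') := by
          refine Finset.sum_congr rfl fun i _ => ?_
          rw [← Finset.mul_sum, ← hspec i]
      _ = ∑ i', (∑ i, (v i : K) * ((M b n d κ c e m i i' : ℤ) : K)) * θ i' := by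
          rw [Finset.sum_comm]
          refine Finset.sum_congr rfl fun i' _ => ?_
          rw [Finset.sum_mul]
          refine Finset.sum_congr rfl fun i _ => ?_
          ring
      _ = 0 := by
          refine Finset.sum_eq_zero fun i' _ => ?_
          have h2 := congrFun hv i'
          simp only [Matrix.vecMul, dotProduct, Pi.zero_apply] at h2
          have h3 : ∑ i, (v i : K) * ((M b n d κ c e m i i' : ℤ) : K) = 0 := by
            have h4 := congrArg (fun t : ℤ => (t : K)) h2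
            simp only [Int.cast_sum, Int.cast_mul, Int.cast_zero] at h4
            exact h4
          rw [h3, zero_mul]
  have h2 : (((b : ℕ) : K) ^ κ * γ) * ∑ i, (v i : K) * θ i = 0 := by
    rw [Finset.mul_sum, ← h1]
    refine Finset.sum_congr rfl fun i _ => ?_
    ring
  exact (mul_eq_zero.1 h2).resolve_left (mul_ne_zero (pow_ne_zero _ hb0) hγ0)

theorem dvd_of_det_eq_zero {ι : Type*} [Fintype ι] (b n d κ : ℕ) (hb : 2 ≤ b) (hn : Odd n) (hnd : n.Coprime d)
    (hd : 0 < d) (hx : ¬ Exc b) (c : ι → ℤ) (e m : ι → ℕ)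
    (hu : ∀ j i, i < d → u n d (i + m j) ≤ κ + e j + u n d i)
    (hdet : (M b n d κ c e m).det = 0) : ((b : ℤ) ^ n + 1) ∣ ∑ j, c j * (b : ℤ) ^ e j := by
  obtain ⟨v, hv0, hv⟩ := Matrix.exists_vecMul_eq_zero_iff.2 hdet
  have hirr := F_irreducible b n d hb hn hnd hd hx
  have : Fact (Irreducible (F b n d)) := ⟨hirr⟩
  have hmkX : ∀ i : ℕ, AdjoinRoot.mk (F b n d) (X ^ i) = (AdjoinRoot.root (F b n d)) ^ i := by
    intro i
    rw [map_pow, AdjoinRoot.mk_X]
  have hrel : ((b : ℕ) : AdjoinRoot (F b n d)) ^ n * (AdjoinRoot.root (F b n d)) ^ d = -1 := by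
    have h1 : AdjoinRoot.mk (F b n d) (F b n d) = 0 := AdjoinRoot.mk_self
    have h2 : AdjoinRoot.mk (F b n d) (C ((b : ℚ) ^ n) * X ^ d + 1) =
        ((b : ℕ) : AdjoinRoot (F b n d)) ^ n * (AdjoinRoot.root (F b n d)) ^ d + 1 := by
      rw [map_add, map_mul, hmkX, map_one, AdjoinRoot.mk_C, map_pow, map_natCast]
    have h3 : AdjoinRoot.mk (F b n d) (C ((b : ℚ) ^ n) * X ^ d + 1) = 0 := h1
    rw [h2] at h3
    exact eq_neg_of_add_eq_zero_left h3
  set G : ℤ[X] := ∑ j, C (c j * (b : ℤ) ^ e j) * X ^ m j with hG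
  have hGγ : AdjoinRoot.mk (F b n d) (G.map (Int.castRingHom ℚ)) =
      ∑ j, (c j : AdjoinRoot (F b n d)) * ((b : ℕ) : AdjoinRoot (F b n d)) ^ e j *
        (AdjoinRoot.root (F b n d)) ^ m j := by
    rw [hG, Polynomial.map_sum, map_sum]
    refine Finset.sum_congr rfl fun j _ => ?_
    rw [Polynomial.map_mul, Polynomial.map_pow, map_X, map_C, map_mul, hmkX, AdjoinRoot.mk_C]
    simp only [eq_intCast, Int.cast_mul, Int.cast_pow, Int.cast_natCast, map_mul, map_pow, map_intCast,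
      map_natCast]
  have hGe : G.eval 1 = ∑ j, c j * (b : ℤ) ^ e j := by
    rw [hG, eval_finsetSum]
    refine Finset.sum_congr rfl fun j _ => ?_
    simp
  by_cases hγ0 : ∑ j, (c j : AdjoinRoot (F b n d)) * ((b : ℕ) : AdjoinRoot (F b n d)) ^ e j *
        (AdjoinRoot.root (F b n d)) ^ m j = 0
  · rw [← hGe]
    apply dvd_of_F_dvd b n d hd
    rw [← AdjoinRoot.mk_eq_zero, hGγ, hγ0]
  · exfalso
    apply hv0
    have h3 := kernel_relation b n d κ hn.pos hd c e m hu _ hrel hγ0 v hv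
    set W : ℚ[X] := ∑ i : Fin d, C ((v i : ℚ) * (b : ℚ) ^ (u n d i.1)) * X ^ i.1 with hW
    have hWm : AdjoinRoot.mk (F b n d) W = 0 := by
      rw [← h3, hW, map_sum]
      refine Finset.sum_congr rfl fun i _ => ?_
      rw [map_mul, hmkX, AdjoinRoot.mk_C]
      simp only [map_mul, map_pow, map_intCast, map_natCast]
      ring
    rw [AdjoinRoot.mk_eq_zero] at hWm
    have hWd : W.degree < d := by
      rw [hW]
      refine (degree_sum_le _ _).trans_lt ?_
      rw [Finset.sup_lt_iff (by exact_mod_cast WithBot.bot_lt_coe d)]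
      intro i _
      refine (degree_C_mul_X_pow_le _ _).trans_lt ?_
      exact_mod_cast i.2
    have hW0 : W = 0 := by
      by_contra hne
      have h5 := degree_le_of_dvd hWm hne
      have h6 : (F b n d).degree = d := by
        rw [degree_eq_natDegree (F_ne_zero b n d hb hd), F_natDegree b n d hb hd]
      rw [h6] at h5
      exact absurd (lt_of_le_of_lt h5 hWd) (lt_irrefl _)
    funext i
    have h7 : W.coeff i.1 = (v i : ℚ) * (b : ℚ) ^ (u n d i.1) := by
      rw [hW, finsetSum_coeff, Finset.sum_eq_single i]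
      · rw [coeff_C_mul, coeff_X_pow, if_pos rfl, mul_one]
      · intro i' _ hi'
        rw [coeff_C_mul, coeff_X_pow, if_neg, mul_zero]
        intro h
        exact hi' (Fin.ext h.symm)
      · intro h
        exact absurd (Finset.mem_univ _) h
    rw [hW0, coeff_zero] at h7
    have h8 : (v i : ℚ) = 0 := by
      rcases mul_eq_zero.1 h7.symm with h | h
      · exact h
      · exfalso
        have : (0 : ℚ) < (b : ℚ) ^ (u n d i.1) := by positivity
        linarith
    exact_mod_cast h8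

end WGT
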