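import Pool.Agent.WGS.Cap

/-!
# An integer matrix for multiplication by `∑ c_j b ^ e_j X ^ m_j` modulo `b ^ n X ^ d + 1`

`u i = i n / d` (rounded down). In a commutative ring in which `b ^ n s ^ d = -1` the elements `b ^ (u i) s ^ i`, `i < d`,
are multiplied by `b ^ κ ∑ c_j b ^ e_j s ^ m_j` according to the matrix `M`, whose entries are small when each
`m_j n / d` is close to `e_j`.
-/

set_option autoImplicit false
set_option linter.unusedVariables false

namespace WGT

open Finset Polynomial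

/-- the balanced exponent -/
def u (n d i : ℕ) : ℕ := i * n / d

/-- the matrix -/
def M {ι : Type*} [Fintype ι] (b n d κ : ℕ) (c : ι → ℤ) (e m : ι → ℕ) : Matrix (Fin d) (Fin d) ℤ :=
  fun i i' => ∑ j, if (i.1 + m j) % d = i'.1 then
    (-1) ^ ((i.1 + m j) / d) * c j * (b : ℤ) ^ (κ + e j + u n d i.1 - u n d (i.1 + m j)) else 0

theorem u_add (n d i q : ℕ) (hd : 0 < d) : u n d (i + d * q) = u n d i + q * n := by
  unfold u
  have : (i + d * q) * n = i * n + d * (q * n) := by ring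
  rw [this, Nat.add_mul_div_left _ _ hd]

/-- the defining identity of `M` -/
theorem M_spec {ι : Type*} [Fintype ι] {R : Type*} [CommRing R] (b n d κ : ℕ) (c : ι → ℤ) (e m : ι → ℕ) (s : R)
    (hd : 0 < d) (hs : (b : R) ^ n * s ^ d = -1)
    (hu : ∀ j i, i < d → u n d (i + m j) ≤ κ + e j + u n d i) (i : Fin d) :
    ∑ i' : Fin d, ((M b n d κ c e m i i' : ℤ) : R) * ((b : R) ^ (u n d i'.1) * s ^ i'.1) =
      (b : R) ^ κ * (∑ j, (c j : R) * (b : R) ^ e j * s ^ m j) * ((b : R) ^ (u n d i.1) * s ^ i.1) := by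
  unfold M
  simp only [Int.cast_sum, Finset.sum_mul, Finset.mul_sum]
  rw [Finset.sum_comm]
  refine Finset.sum_congr rfl fun j _ => ?_
  have hlt : (i.1 + m j) % d < d := Nat.mod_lt _ hd
  rw [Finset.sum_eq_single (⟨(i.1 + m j) % d, hlt⟩ : Fin d)]
  · simp only [if_true]
    have h1 := hu j i.1 i.2
    set q := (i.1 + m j) / d with hq
    set r := (i.1 + m j) % d with hr
    have h2 : i.1 + m j = r + d * q := by
      rw [hr, hq]; exact (Nat.mod_add_div _ _).symm
    have h3 : u n d (i.1 + m j) = u n d r + q * n := by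
      rw [h2]; exact u_add n d r q hd
    obtain ⟨E, hE⟩ : ∃ E, κ + e j + u n d i.1 = E + u n d (i.1 + m j) := ⟨_, (Nat.sub_add_cancel h1).symm⟩
    have h4 : κ + e j + u n d i.1 - u n d (i.1 + m j) = E := by omega
    rw [h4]
    push_cast
    have h5 : (b : R) ^ (κ + e j + u n d i.1) = (b : R) ^ E * ((b : R) ^ (u n d r) * (b : R) ^ (q * n)) := by
      rw [hE, h3, pow_add, pow_add]
    have h6 : s ^ (i.1 + m j) = s ^ r * s ^ (d * q) := by rw [h2, pow_add]
    have h7 : (b : R) ^ (q * n) * s ^ (d * q) = (-1) ^ q := by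
      rw [mul_comm q n, pow_mul, pow_mul, ← mul_pow, hs]
    have h8 : (b : R) ^ κ * ((c j : R) * (b : R) ^ e j * s ^ m j) * ((b : R) ^ (u n d i.1) * s ^ i.1) =
        (c j : R) * (b : R) ^ (κ + e j + u n d i.1) * s ^ (i.1 + m j) := by
      rw [pow_add, pow_add, pow_add]; ring
    rw [h8, h5, h6]
    calc (-1) ^ q * (c j : R) * (b : R) ^ E * ((b : R) ^ (u n d r) * s ^ r)
        = (c j : R) * (b : R) ^ E * (b : R) ^ (u n d r) * s ^ r * (-1) ^ q := by ring
      _ = (c j : R) * (b : R) ^ E * (b : R) ^ (u n d r) * s ^ r * ((b : R) ^ (q * n) * s ^ (d * q)) := by rw [h7]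
      _ = _ := by ring
  · intro i' _ hi'
    rw [if_neg]
    · simp
    · intro h
      apply hi'
      ext
      exact h.symm
  · intro h
    exact absurd (Finset.mem_univ _) h

/-- Row sums bound a determinant. -/
theorem abs_det_le_prod {d : ℕ} (A : Matrix (Fin d) (Fin d) ℤ) :
    |A.det| ≤ ∏ i, ∑ j, |A i j| := by
  rw [Matrix.det_apply']
  calc |∑ σ : Equiv.Perm (Fin d), ((Equiv.Perm.sign σ : ℤ) : ℤ) * ∏ i, A (σ i) i|
      ≤ ∑ σ : Equiv.Perm (Fin d), |((Equiv.Perm.sign σ : ℤ) : ℤ) * ∏ i, A (σ i) i| :=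
        Finset.abs_sum_le_sum_abs _ _
    _ = ∑ σ : Equiv.Perm (Fin d), ∏ i, |A i (σ.symm i)| := by
        refine Finset.sum_congr rfl fun σ _ => ?_
        rw [abs_mul, Finset.abs_prod]
        have h1 : |((Equiv.Perm.sign σ : ℤ) : ℤ)| = 1 := by
          rcases Int.units_eq_one_or (Equiv.Perm.sign σ) with h | h <;> simp [h]
        rw [h1, one_mul]
        rw [← Equiv.prod_comp σ (fun i => |A i (σ.symm i)|)]
        simp
    _ ≤ ∑ f : Fin d → Fin d, ∏ i, |A i (f i)| := by
        classical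
        have h2 : ∑ σ : Equiv.Perm (Fin d), ∏ i, |A i (σ.symm i)| =
            ∑ f ∈ (Finset.univ : Finset (Equiv.Perm (Fin d))).image
              (fun σ : Equiv.Perm (Fin d) => (fun i => σ.symm i : Fin d → Fin d)),
              ∏ i, |A i (f i)| := by
          rw [Finset.sum_image]
          intro σ _ τ _ h
          have h3 : σ.symm = τ.symm := Equiv.ext fun i => congrFun h i
          exact Equiv.symm_bijective.injective h3
        rw [h2]
        refine Finset.sum_le_sum_of_subset_of_nonneg (Finset.subset_univ _) ?_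
        intro f _ _
        exact Finset.prod_nonneg fun i _ => abs_nonneg _
    _ = ∏ i, ∑ j, |A i j| := by
        rw [Finset.prod_univ_sum]
        simp [Fintype.piFinset_univ]

/-- the entries of `M` in one row -/
theorem row_sum_le {ι : Type*} [Fintype ι] (b n d κ : ℕ) (hb : 1 ≤ b) (c : ι → ℤ) (e m : ι → ℕ) (hd : 0 < d)
    (hu' : ∀ j i, i < d → e j + u n d i ≤ κ + u n d (i + m j)) (i : Fin d) :
    ∑ i', |M b n d κ c e m i i'| ≤ (∑ j, |c j|) * (b : ℤ) ^ (2 * κ) := by
  unfold M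
  calc ∑ i' : Fin d, |∑ j, if (i.1 + m j) % d = i'.1 then
        (-1) ^ ((i.1 + m j) / d) * c j * (b : ℤ) ^ (κ + e j + u n d i.1 - u n d (i.1 + m j)) else 0|
      ≤ ∑ i' : Fin d, ∑ j, |if (i.1 + m j) % d = i'.1 then
        (-1) ^ ((i.1 + m j) / d) * c j * (b : ℤ) ^ (κ + e j + u n d i.1 - u n d (i.1 + m j)) else 0| :=
        Finset.sum_le_sum fun i' _ => Finset.abs_sum_le_sum_abs _ _
    _ = ∑ j, ∑ i' : Fin d, |if (i.1 + m j) % d = i'.1 then
        (-1) ^ ((i.1 + m j) / d) * c j * (b : ℤ) ^ (κ + e j + u n d i.1 - u n d (i.1 + m j)) else 0| :=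
        Finset.sum_comm
    _ ≤ ∑ j, |c j| * (b : ℤ) ^ (2 * κ) := by
        refine Finset.sum_le_sum fun j _ => ?_
        have hlt : (i.1 + m j) % d < d := Nat.mod_lt _ hd
        rw [Finset.sum_eq_single (⟨(i.1 + m j) % d, hlt⟩ : Fin d)]
        · simp only [if_true]
          rw [abs_mul, abs_mul, abs_pow, abs_neg, abs_one, one_pow, one_mul, abs_pow, Nat.abs_cast]
          refine mul_le_mul_of_nonneg_left ?_ (abs_nonneg _)
          refine pow_le_pow_right₀ (by exact_mod_cast hb) ?_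
          have := hu' j i.1 i.2
          omega
        · intro i' _ hi'
          rw [if_neg, abs_zero]
          intro h
          apply hi'
          ext
          exact h.symm
        · intro h
          exact absurd (Finset.mem_univ _) h
    _ = (∑ j, |c j|) * (b : ℤ) ^ (2 * κ) := by rw [Finset.sum_mul]

theorem abs_det_le {ι : Type*} [Fintype ι] (b n d κ : ℕ) (hb : 1 ≤ b) (c : ι → ℤ) (e m : ι → ℕ) (hd : 0 < d)
    (hu' : ∀ j i, i < d → e j + u n d i ≤ κ + u n d (i + m j)) :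
    |(M b n d κ c e m).det| ≤ ((∑ j, |c j|) * (b : ℤ) ^ (2 * κ)) ^ d := by
  refine (abs_det_le_prod _).trans ?_
  calc ∏ i, ∑ i', |M b n d κ c e m i i'| ≤ ∏ i : Fin d, (∑ j, |c j|) * (b : ℤ) ^ (2 * κ) :=
        Finset.prod_le_prod (fun i _ => Finset.sum_nonneg fun _ _ => abs_nonneg _)
          fun i _ => row_sum_le b n d κ hb c e m hd hu' i
    _ = _ := by simp

/-- `g` divides the determinant. -/
theorem dvd_det {ι : Type*} [Fintype ι] (b n d κ g : ℕ) (c : ι → ℤ) (e m : ι → ℕ) (hd : 0 < d)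
    (hu : ∀ j i, i < d → u n d (i + m j) ≤ κ + e j + u n d i)
    (hg1 : (g : ℤ) ∣ (b : ℤ) ^ n + 1) (hg2 : (g : ℤ) ∣ ∑ j, c j * (b : ℤ) ^ e j) :
    (g : ℤ) ∣ (M b n d κ c e m).det := by
  have hs : ((b : ℕ) : ZMod g) ^ n * (1 : ZMod g) ^ d = -1 := by
    have h1 : (((b : ℤ) ^ n + 1 : ℤ) : ZMod g) = 0 := (ZMod.intCast_zmod_eq_zero_iff_dvd _ _).2 hg1
    push_cast at h1
    rw [one_pow, mul_one]
    exact eq_neg_of_add_eq_zero_left h1
  have hz : ∑ j, (c j : ZMod g) * ((b : ℕ) : ZMod g) ^ e j = 0 := by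
    have h1 : ((∑ j, c j * (b : ℤ) ^ e j : ℤ) : ZMod g) = 0 := (ZMod.intCast_zmod_eq_zero_iff_dvd _ _).2 hg2
    push_cast at h1
    exact h1
  set v : Fin d → ZMod g := fun i => ((b : ℕ) : ZMod g) ^ (u n d i.1) with hv
  set A : Matrix (Fin d) (Fin d) (ZMod g) := (M b n d κ c e m).map (Int.castRingHom (ZMod g)) with hA
  have h1 : A.mulVec v = 0 := by
    funext i
    have h2 := M_spec b n d κ c e m (1 : ZMod g) hd hs hu i
    simp only [one_pow, mul_one] at h2
    rw [hz, mul_zero, zero_mul] at h2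
    simp only [Matrix.mulVec, dotProduct, Pi.zero_apply, hA, hv, Matrix.map_apply]
    exact h2
  have h2 : A.det • v = 0 := by
    have h3 : (A.adjugate * A).mulVec v = 0 := by
      rw [← Matrix.mulVec_mulVec, h1, Matrix.mulVec_zero]
    rw [Matrix.adjugate_mul, Matrix.smul_mulVec, Matrix.one_mulVec] at h3
    exact h3
  have h3 : A.det = 0 := by
    have h4 := congrFun h2 ⟨0, hd⟩
    have h5 : v ⟨0, hd⟩ = 1 := by simp [hv, u]
    simp only [Pi.smul_apply, h5, smul_eq_mul, mul_one, Pi.zero_apply] at h4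
    exact h4
  have h4 : (((M b n d κ c e m).det : ℤ) : ZMod g) = 0 := by
    have h5 : A.det = ((M b n d κ c e m).det : ZMod g) := by
      have h6 := RingHom.map_det (Int.castRingHom (ZMod g)) (M b n d κ c e m)
      simpa [hA, RingHom.mapMatrix_apply] using h6.symm
    rw [← h5]; exact h3
  exact (ZMod.intCast_zmod_eq_zero_iff_dvd _ _).1 h4

end WGT
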