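import Pool.Agent.CZF.FI

/-!
# The sharp form of the inequality for common divisors, and of the lower bound for formulas
-/

set_option autoImplicit false
set_option linter.unusedVariables false

namespace WGT

open Finset

/-- the inequality as a property of the base -/
def Ineq2 (b : ℕ) : Prop :=
  ∀ (n k D A N : ℕ) (c : Fin N → ℤ) (m : Fin N → Fin (k + 1) → ℕ) (e : Fin (k + 1) → ℕ), Odd n → 1 ≤ D →
    (∀ i, ∑ j, m i j = D) → (∀ q : ℕ, q.Prime → q ∣ n → (A * D) ^ k < q) →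
    ¬ ((b : ℤ) ^ n + 1 ∣ ∑ i, c i * ∏ j, ((b : ℤ) ^ e j) ^ m i j) →
    Int.gcd (∑ i, c i * ∏ j, ((b : ℤ) ^ e j) ^ m i j) ((b : ℤ) ^ n + 1) ^ A ≤
      b ^ (2 * n) * (b ^ 2 * ∑ i, (c i).natAbs) ^ (A * (A * D) ^ k)

/-- lower bound for the length of a formula -/
def FormBd2 (b : ℕ) : Prop :=
  ∀ ε : ℝ, 0 < ε → ∃ K : ℕ, ∀ (n k D N x : ℕ) (c : Fin N → ℤ) (m : Fin N → Fin (k + 1) → ℕ)
    (e : Fin (k + 1) → ℕ), Odd n → 1 < n → 1 ≤ D → (∀ i, ∑ j, m i j = D) →
    x ∣ (b ^ n + 1) / (b + 1) → (b : ℝ) ^ (ε * n) ≤ x →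
    (x : ℤ) ∣ ∑ i, c i * ∏ j, ((b : ℤ) ^ e j) ^ m i j →
    ¬ ((b : ℤ) ^ n + 1 ∣ ∑ i, c i * ∏ j, ((b : ℤ) ^ e j) ^ m i j) →
    n.minFac ≤ (K * D) ^ k ∨
      n * Real.log b ≤ K * (K * D) ^ k * Real.log (b * (∑ i, (c i).natAbs : ℕ))

theorem ineq2_of_not_exc (b : ℕ) (hb : 2 ≤ b) (hx : ¬ Exc b) : Ineq2 b := by
  intro n k D A N c m e hn hD hm hq hnd
  rcases Nat.lt_or_ge A 2 with hA2 | hA2
  · have hn0 : 0 < n := hn.pos
    have hH : 1 ≤ ∑ i, (c i).natAbs := by
      by_contra hlt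
      have h0 : ∑ i, (c i).natAbs = 0 := by omega
      apply hnd
      have h1 : ∀ j, c j = 0 := by
        intro j
        have h2 := (Finset.sum_eq_zero_iff (f := fun i => (c i).natAbs)).1 h0 j (Finset.mem_univ _)
        exact Int.natAbs_eq_zero.1 h2
      simp [h1]
    have h1 : 1 ≤ b ^ 2 * ∑ i, (c i).natAbs := Nat.mul_pos (by positivity) hH
    have h2 : 1 ≤ (b ^ 2 * ∑ i, (c i).natAbs) ^ (A * (A * D) ^ k) := Nat.one_le_pow _ _ h1
    have h3 : 1 ≤ b ^ (2 * n) := Nat.one_le_pow _ _ (by omega)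
    refine le_trans ?_ (Nat.le_mul_of_pos_right _ h2)
    interval_cases A
    · simpa using h3
    · rw [pow_one]
      have h4 : (Int.gcd (∑ i, c i * ∏ j, ((b : ℤ) ^ e j) ^ m i j) ((b : ℤ) ^ n + 1) : ℤ) ≤ (b : ℤ) ^ n + 1 :=
        Int.le_of_dvd (by positivity) (Int.gcd_dvd_right _ _)
      have h5 : Int.gcd (∑ i, c i * ∏ j, ((b : ℤ) ^ e j) ^ m i j) ((b : ℤ) ^ n + 1) ≤ b ^ n + 1 := by
        exact_mod_cast h4
      have h6 : 2 ≤ b ^ n := hb.trans (Nat.le_self_pow (by omega) b)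
      have h7 : b ^ (2 * n) = b ^ n * b ^ n := by rw [two_mul, pow_add]
      rw [h7]
      nlinarith
  · exact CZF.form_gcd b n k D A N hb hx hn hD hA2 hq c m e hm hnd

theorem formBd2_of_ineq2 (b : ℕ) (hb : 2 ≤ b) (h : Ineq2 b) : FormBd2 b := by
  intro ε hε
  obtain ⟨A, hA1, hAε⟩ : ∃ A : ℕ, 1 ≤ A ∧ 3 ≤ ε * A := by
    refine ⟨⌈3 / ε⌉₊ + 1, by omega, ?_⟩
    have h1 : 3 / ε ≤ ⌈3 / ε⌉₊ := Nat.le_ceil _
    rw [div_le_iff₀ hε] at h1
    push_cast
    nlinarith
  refine ⟨2 * A, ?_⟩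
  intro n k D N x c m e hn hn1 hD hm hx hxε hxz hnd
  rcases Nat.lt_or_ge ((A * D) ^ k) n.minFac with hlt | hge
  swap
  · left
    refine hge.trans (Nat.pow_le_pow_left (Nat.mul_le_mul_right _ (by omega)) _)
  right
  have hYq : ∀ r : ℕ, r.Prime → r ∣ n → (A * D) ^ k < r := by
    intro r hr hrn
    exact lt_of_lt_of_le hlt (Nat.minFac_le_of_dvd hr.two_le hrn)
  have hmain := h n k D A N c m e hn hD hm hYq hnd
  have hdvd1 : b + 1 ∣ b ^ n + 1 := by
    have := Odd.nat_add_dvd_pow_add_pow b 1 hn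
    simpa using this
  have hxn : x ∣ b ^ n + 1 := hx.trans (Nat.div_dvd_of_dvd hdvd1)
  have hxn' : (x : ℤ) ∣ (b : ℤ) ^ n + 1 := by exact_mod_cast hxn
  have hxg : x ∣ Int.gcd (∑ i, c i * ∏ j, ((b : ℤ) ^ e j) ^ m i j) ((b : ℤ) ^ n + 1) := by
    have := Int.dvd_coe_gcd hxz hxn'
    exact_mod_cast this
  have hgpos : 0 < Int.gcd (∑ i, c i * ∏ j, ((b : ℤ) ^ e j) ^ m i j) ((b : ℤ) ^ n + 1) := by
    apply Int.gcd_pos_of_ne_zero_right
    positivity
  have hxle := Nat.le_of_dvd hgpos hxg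
  set H : ℕ := ∑ i, (c i).natAbs with hHdef
  set Y : ℕ := A * (A * D) ^ k with hY
  have hH : 1 ≤ H := by
    by_contra hlt
    have h0 : H = 0 := by omega
    apply hnd
    have h1 : ∀ j, c j = 0 := by
      intro j
      have h2 := (Finset.sum_eq_zero_iff (f := fun i => (c i).natAbs)).1 h0 j (Finset.mem_univ _)
      exact Int.natAbs_eq_zero.1 h2
    simp [h1]
  have hx2 : x ^ A ≤ b ^ (2 * n) * (b ^ 2 * H) ^ Y :=
    (Nat.pow_le_pow_left hxle A).trans hmain
  have hb0 : (0 : ℝ) < b := by exact_mod_cast (by omega : 0 < b)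
  have hb1 : (1 : ℝ) < b := by exact_mod_cast (by omega : 1 < b)
  have hH0 : (0 : ℝ) < H := by exact_mod_cast (by omega : 0 < H)
  have hH1 : (1 : ℝ) ≤ H := by exact_mod_cast hH
  have hβ : 0 < Real.log b := Real.log_pos hb1
  have hlH : 0 ≤ Real.log H := Real.log_nonneg hH1
  have hn0 : (0 : ℝ) < n := by exact_mod_cast (by omega : 0 < n)
  have hx0 : (0 : ℝ) < x := lt_of_lt_of_le (by positivity) hxε
  have l1 : ε * n * Real.log b ≤ Real.log x := by
    have := Real.log_le_log (by positivity) hxε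
    rwa [Real.log_rpow hb0] at this
  have l2 : (A : ℝ) * Real.log x ≤ 2 * n * Real.log b + Y * (2 * Real.log b + Real.log H) := by
    have h3 : (x : ℝ) ^ A ≤ (b : ℝ) ^ (2 * n) * ((b : ℝ) ^ 2 * H) ^ Y := by exact_mod_cast hx2
    have h4 := Real.log_le_log (by positivity) h3
    rw [Real.log_mul (by positivity) (by positivity), Real.log_pow, Real.log_pow, Real.log_pow,
      Real.log_mul (by positivity) (by positivity), Real.log_pow] at h4
    push_cast at h4 ⊢
    linarith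
  have l3 : 3 * (n * Real.log b) ≤ A * Real.log x := by
    calc 3 * (n * Real.log b) ≤ (ε * A) * (n * Real.log b) :=
          mul_le_mul_of_nonneg_right hAε (by positivity)
      _ = A * (ε * n * Real.log b) := by ring
      _ ≤ A * Real.log x := mul_le_mul_of_nonneg_left l1 (Nat.cast_nonneg _)
  have l4 : n * Real.log b ≤ Y * (2 * Real.log b + Real.log H) := by linarith
  have l5 : Real.log (b * H) = Real.log b + Real.log H := Real.log_mul hb0.ne' hH0.ne'
  have l6 : (Y : ℝ) * (2 * Real.log b + Real.log H) ≤ (2 * A : ℕ) * ((2 * A : ℕ) * D) ^ k * Real.log (b * H) := by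
    have h3 : (Y : ℝ) * (2 * Real.log b + Real.log H) ≤ (2 * Y) * Real.log (b * H) := by
      rw [l5]
      have : (0 : ℝ) ≤ Y := Nat.cast_nonneg _
      nlinarith
    refine h3.trans (mul_le_mul_of_nonneg_right ?_ (by rw [l5]; linarith))
    rw [hY]
    push_cast
    have h4 : ((A : ℝ) * D) ^ k ≤ (2 * A * D) ^ k := by
      apply pow_le_pow_left₀ (by positivity)
      have : (0 : ℝ) ≤ A * D := by positivity
      nlinarith
    have h5 : (0 : ℝ) ≤ A := Nat.cast_nonneg _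
    calc 2 * ((A : ℝ) * (A * D) ^ k) = 2 * A * (A * D) ^ k := by ring
      _ ≤ 2 * A * (2 * A * D) ^ k := mul_le_mul_of_nonneg_left h4 (by positivity)
  exact l4.trans l6

theorem unbd_of_formBd2 (b : ℕ) (hb : 2 ≤ b) (h : FormBd2 b) : Unbd b := by
  apply unbd_of_formBd b hb
  intro ε hε
  obtain ⟨K, hK⟩ := h ε hε
  refine ⟨2 * K + 2, ?_⟩
  intro n w D N x c m e hn hn1 hD hm hc hx hxε hxz hnd
  have hw1 : 1 ≤ w := by
    by_contra hw
    have hw0 : w = 0 := by omega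
    subst hw0
    rcases Nat.eq_zero_or_pos N with hN | hN
    · subst hN; exact absurd (by simp) hnd
    · have := hm ⟨0, hN⟩
      simp at this
      omega
  obtain ⟨k, rfl⟩ : ∃ k, w = k + 1 := ⟨w - 1, by omega⟩
  have hb1 : (1 : ℝ) < b := by exact_mod_cast (by omega : 1 < b)
  have hβ : 0 < Real.log b := Real.log_pos hb1
  have hT : (K * D) ^ k ≤ ((2 * K + 2) * D) ^ k :=
    Nat.pow_le_pow_left (Nat.mul_le_mul_right _ (by omega)) _
  have hT2 : (K * D) ^ k ≤ ((2 * K + 2) * D) ^ (4 * (k + 1)) :=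
    hT.trans (Nat.pow_le_pow_right (Nat.mul_pos (by omega) (by omega)) (by omega))
  rcases hK n k D N x c m e hn hn1 hD hm hx hxε hxz hnd with h1 | h1
  · exact h1.trans hT2
  · refine (Nat.minFac_le (by omega)).trans ?_
    set H : ℕ := ∑ i, (c i).natAbs with hHdef
    have hH : 1 ≤ H := by
      by_contra hlt
      have h0 : H = 0 := by omega
      apply hnd
      have h1 : ∀ j, c j = 0 := by
        intro j
        have h2 := (Finset.sum_eq_zero_iff (f := fun i => (c i).natAbs)).1 h0 j (Finset.mem_univ _)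
        exact Int.natAbs_eq_zero.1 h2
      simp [h1]
    have hH0 : (0 : ℝ) < H := by exact_mod_cast (by omega : 0 < H)
    have hlog : Real.log H ≤ √n * Real.log b := by
      have := Real.log_le_log hH0 hc
      rwa [Real.log_rpow (by linarith)] at this
    set s : ℝ := √n with hs
    have hss : s * s = n := Real.mul_self_sqrt (Nat.cast_nonneg n)
    have hs1 : 1 ≤ s := by
      rw [hs, Real.one_le_sqrt]
      exact_mod_cast hn1.le
    have h2 : n * Real.log b ≤ K * (K * D) ^ k * (2 * s * Real.log b) := by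
      refine h1.trans (mul_le_mul_of_nonneg_left ?_ (by positivity))
      rw [Real.log_mul (by positivity) hH0.ne']
      nlinarith
    have h3 : s * s ≤ K * (K * D) ^ k * (2 * s) := by
      rw [hss]
      have : (n : ℝ) * Real.log b ≤ (K * (K * D) ^ k * (2 * s)) * Real.log b := by linarith
      exact le_of_mul_le_mul_right this hβ
    have h4 : s ≤ 2 * (K * (K * D) ^ k) := by
      have h5 : s * s ≤ (2 * (K * (K * D) ^ k)) * s := by linarith
      exact le_of_mul_le_mul_right h5 (by linarith)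
    have h5 : s ≤ (((2 * K + 2) * D) ^ (k + 1) : ℕ) := by
      refine h4.trans ?_
      have h6 : 2 * (K * (K * D) ^ k) ≤ ((2 * K + 2) * D) ^ (k + 1) := by
        rw [pow_succ']
        have h7 : 2 * K ≤ (2 * K + 2) * D := by nlinarith
        calc 2 * (K * (K * D) ^ k) = 2 * K * (K * D) ^ k := by ring
          _ ≤ (2 * K + 2) * D * ((2 * K + 2) * D) ^ k := Nat.mul_le_mul h7 hT
      exact_mod_cast h6
    have h6 : (n : ℝ) ≤ (((2 * K + 2) * D) ^ (4 * (k + 1)) : ℕ) := by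
      have h7 : (n : ℝ) ≤ (((2 * K + 2) * D) ^ (k + 1) : ℕ) ^ 2 := by
        rw [← hss, sq]
        exact mul_le_mul h5 h5 (by linarith) (Nat.cast_nonneg _)
      refine h7.trans ?_
      have h8 : (((2 * K + 2) * D) ^ (k + 1)) ^ 2 ≤ ((2 * K + 2) * D) ^ (4 * (k + 1)) := by
        rw [← pow_mul]
        exact Nat.pow_le_pow_right (Nat.mul_pos (by omega) (by omega)) (by omega)
      exact_mod_cast h8
    exact_mod_cast h6

end WGT
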